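import Pool.Agent.Helper92.BW.GoalsB
import Pool.Agent.Helper60.FR.CPV

/-! Packet BW-BDV: the values of the rows at the vertices. -/

namespace Pool.Agent.Helper31.BW

open Pool.Agent.Helper92.BW Pool.Agent.Bin Pool.Agent.Helper60.FR
open Pool.Agent.Helper92.FR hiding DepStmt

theorem phi_val {d : ℕ} {st : Cst} {r : List Qn × Qn} (h : CWf d st) (hr : r.1.length = d)
    (i : Fin (d + 1)) : (phi st r i).val = ip (lv d r.1) (VV d st i) - r.2.val := by
  unfold phi ip VV
  rw [Qn.val_sub, val_dot d _ _ hr (len_vert h i.2)]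

theorem sum_range_map (n : ℕ) (f : ℕ → Qn) :
    (Qn.sum ((List.range n).map f)).val = ∑ i : Fin n, (f i).val := by
  rw [Qn.val_sum, List.map_map, Finset.sum_fin_eq_sum_range]
  induction n with
  | zero => simp
  | succ n ih =>
    rw [List.range_succ, List.map_append, List.sum_append, ih, Finset.sum_range_succ]
    congr 1
    · refine Finset.sum_congr rfl fun i hi => ?_
      have h1 : i < n := Finset.mem_range.1 hi
      rw [dif_pos h1, dif_pos (by omega)]
    · simp

theorem bdv : BdvStmt := by
  intro d hd st r h hr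
  have h2 : (phm d st r).val =
      (∑ i, (ip (lv d r.1) (VV d st i) - r.2.val)) / ((d : ℝ) + 1) := by
    unfold phm
    rw [Qn.val_mul, val_invNat (by omega), sum_range_map]
    simp_rw [phi_val h hr]
    push_cast
    ring
  have hlen : (phs d st r).length = d + 1 := by
    unfold phs
    rw [List.length_map, List.length_range]
  have hqc : 1 ≤ qc d := by
    unfold qc
    exact Nat.succ_le_of_lt (by positivity)
  refine ⟨fun i => phi_val h hr i, h2, ?_, hlen, ?_⟩
  · unfold bad
    rw [List.any_eq_true]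
    have key : ∀ i : Fin (d + 1), ((!(Qn.le Qn.zero (Qn.add (Qn.mul (qNat (qc d - 1))
        (phm d st r)) (phi st r i)))) = true) ↔ ((qc d : ℝ) - 1) * (phm d st r).val +
        (ip (lv d r.1) (VV d st i) - r.2.val) < 0 := by
      intro i
      rw [Bool.not_eq_true', ← Bool.not_eq_true, Qn.le_iff, not_le, Qn.val_zero, Qn.val_add,
        Qn.val_mul, val_qNat, phi_val h hr, Nat.cast_sub hqc, Nat.cast_one]
    constructor
    · rintro ⟨i, hi, h3⟩
      rw [List.mem_range] at hi
      exact ⟨⟨i, hi⟩, (key ⟨i, hi⟩).1 h3⟩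
    · rintro ⟨i, hi⟩
      exact ⟨i.val, List.mem_range.2 i.2, (key i).2 hi⟩
  · intro i
    unfold lv phs
    rw [getD_mr (d + 1) _ _ i.2, Qn.val_sub, phi_val h hr]
    have h3 := Qn.le_iff (phm d st r) Qn.zero
    rw [Qn.val_zero] at h3
    by_cases h4 : Qn.le (phm d st r) Qn.zero = true
    · rw [if_pos h4, min_eq_left (h3.1 h4)]
      rfl
    · rw [if_neg h4, Qn.val_zero, min_eq_right (by
        by_contra hc
        exact h4 (h3.2 (le_of_lt (not_le.1 hc))))]
      rfl

end Pool.Agent.Helper31.BW
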